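import Pool.Agent.H37.CNE.Stmts

/-!
# Board `cne`, row SLD (helper2): the degree of `k(S, X, Y)` over `k(S)`
-/

set_option autoImplicit false

namespace Pool.CND

open Finset

/-- elements of nonzero order are transcendental: positive order -/
private theorem sld_pos {k L : Type} [Field k] [Field L] [Algebra k L] (P : Place k L) {x : L}
    (hx : x ≠ 0) (h : 1 ≤ P.ord x) : Transcendental k x := by
  intro halg
  have hint : IsIntegral k x := halg.isIntegral
  have h0 : (minpoly k x).coeff 0 ≠ 0 := minpoly.coeff_zero_ne_zero hint hx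
  have hge : ∀ r : Polynomial k, P.Ge (Polynomial.aeval x r) 0 := by
    intro r
    induction r using Polynomial.induction_on' with
    | add a b ha hb => rw [map_add]; exact P.ge_add ha hb
    | monomial n a =>
      rw [Polynomial.aeval_monomial]
      have h1 : P.Ge (x ^ n) 0 := Or.inr (by rw [P.ord_pow hx]; positivity)
      have := P.ge_mul (P.ge_const a) h1
      rwa [add_zero] at this
  have h1 := Polynomial.divX_mul_X_add (minpoly k x)
  have h2 : Polynomial.aeval x (minpoly k x) = 0 := minpoly.aeval k x
  rw [← h1, map_add, map_mul, Polynomial.aeval_X, Polynomial.aeval_C] at h2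
  have h3 : P.Ge (algebraMap k L ((minpoly k x).coeff 0)) 1 := by
    have h4 : algebraMap k L ((minpoly k x).coeff 0) =
        -(Polynomial.aeval x (minpoly k x).divX * x) := by linear_combination h2
    rw [h4]
    refine P.ge_neg ?_
    have h5 := P.ge_mul (hge (minpoly k x).divX) (Or.inr h : P.Ge x 1)
    rwa [zero_add] at h5
  have h6 : algebraMap k L ((minpoly k x).coeff 0) ≠ 0 := by
    rw [Ne, map_eq_zero]
    exact h0
  have h7 := (P.ge_iff h6 1).1 h3
  rw [P.ord_const _ h0] at h7
  omega

/-- elements of nonzero order are transcendental -/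
private theorem sld_tr {k L : Type} [Field k] [Field L] [Algebra k L] (P : Place k L) {x : L}
    (hx : x ≠ 0) (h : P.ord x ≠ 0) : Transcendental k x := by
  rcases lt_or_gt_of_ne h with h | h
  · intro halg
    refine sld_pos P (inv_ne_zero hx) ?_ halg.inv
    rw [P.ord_inv hx]
    omega
  · exact sld_pos P hx (by omega)

theorem sld_thm (hV : S_SLV) (hT : S_SLT) (hM : S_SLM) : S_SLD := by
  intro k Ω _ _ _ Λ q m S X Y hq hm hco1 hco2 hS hX hY hoS hoX hoY heX heXY
  have hposq : 0 < q * (q - 1) := Nat.mul_pos (by omega) (by omega)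
  have hposm : 0 < m * q := Nat.mul_pos (by omega) (by omega)
  have htS : Transcendental k S := sld_tr Λ hS (by rw [hoS]; omega)
  have htX : Transcendental k X := sld_tr Λ hX (by rw [hoX]; omega)
  obtain ⟨h1, h2⟩ := hT k Ω q X (S ^ m) hq htX heX
  obtain ⟨h3, h4⟩ := hM k Ω m S hm htS
  have h5 := hV k Ω Λ q m S X Y hq hm hco1 hco2 hS hX hY hoS hoX hoY heX heXY
  have h6 : IntermediateField.adjoin k {X} ≤ IntermediateField.adjoin k {S, X, Y} :=
    IntermediateField.adjoin.mono k _ _ (by simp)
  have h7 : IntermediateField.adjoin k {S} ≤ IntermediateField.adjoin k {S, X, Y} :=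
    IntermediateField.adjoin.mono k _ _ (by simp)
  have e1 := IntermediateField.relfinrank_mul_relfinrank h1 h6
  have e2 := IntermediateField.relfinrank_mul_relfinrank h3 h7
  rw [h2, h5] at e1
  rw [h4] at e2
  have e3 : m * IntermediateField.relfinrank (IntermediateField.adjoin k {S})
      (IntermediateField.adjoin k {S, X, Y}) = m * (q * (q ^ 2 - 1)) := by
    rw [e2, ← e1]
    ring
  exact Nat.eq_of_mul_eq_mul_left (by omega) e3

end Pool.CND
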