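import Pool.Agent.H37.CNE.Stmts

/-!
# Board `cne`, row SLI (helper2): the data `Sl` define a cover
-/

set_option autoImplicit false

namespace Pool.CND

open Finset

/-- a solution of `x ^ (q ^ 2) + x = a x ^ q` with `a` integral is integral at the place -/
private theorem sli_int {k L : Type} [Field k] [Field L] [Algebra k L] (P : Place k L) {x a : L}
    {q : ℕ} (hq : 2 ≤ q) (ha : P.Ge a 0) (h : x ^ (q ^ 2) + x = a * x ^ q) : P.Ge x 0 := by
  by_contra hx
  obtain ⟨hx0, hxlt⟩ := P.not_ge.1 hx
  have hq' : (2 : ℤ) ≤ q := by exact_mod_cast hq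
  have h1 : P.ord (x ^ (q ^ 2)) = (q : ℤ) ^ 2 * P.ord x := by
    rw [P.ord_pow hx0]
    push_cast
    ring
  have h2 : (q : ℤ) ^ 2 * P.ord x + 1 ≤ q * P.ord x := by
    have h3 : (q : ℤ) * P.ord x < 0 := mul_neg_of_pos_of_neg (by omega) hxlt
    nlinarith
  have h2' : (q : ℤ) * P.ord x ≤ P.ord x := by nlinarith
  have h3 : P.Ge x (P.ord (x ^ (q ^ 2)) + 1) :=
    P.ge_mono (P.ge_ord x) (by rw [h1]; omega)
  obtain ⟨h4, h5⟩ := P.ord_add_of_lt (pow_ne_zero _ hx0) h3
  have h6 : P.Ge (a * x ^ q) (0 + q * P.ord x) :=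
    P.ge_mul ha (Or.inr (by rw [P.ord_pow hx0]))
  rw [← h, zero_add] at h6
  have h7 := (P.ge_iff h4 _).1 h6
  omega

/-- `u`, `v` are independent over `F` if `u v ^ q - u ^ q v = 1` -/
private theorem sli_indep {F K : Type} [Field F] [Field K] (φ : F →+* K) (q : ℕ) (hq : 1 ≤ q)
    (hF : ∀ a : F, a ^ q = a) (u v : K) (h : u * v ^ q - u ^ q * v = 1) (α β : F)
    (h0 : φ α * u + φ β * v = 0) : α = 0 ∧ β = 0 := by
  have hβ : β = 0 := by
    by_contra hβ
    have hφ : φ β ≠ 0 := by rwa [Ne, map_eq_zero]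
    have hv : v = φ (-(α / β)) * u := by
      rw [map_neg, map_div₀]
      field_simp
      linear_combination h0
    rw [hv, mul_pow, ← map_pow, hF] at h
    have h1 : u * (φ (-(α / β)) * u ^ q) - u ^ q * (φ (-(α / β)) * u) = 0 := by ring
    rw [h1] at h
    exact zero_ne_one h
  refine ⟨?_, hβ⟩
  by_contra hα
  have hφ : φ α ≠ 0 := by rwa [Ne, map_eq_zero]
  rw [hβ, map_zero, zero_mul, add_zero] at h0
  have hu : u = 0 := (mul_eq_zero.1 h0).resolve_left hφ
  rw [hu, zero_pow (by omega), zero_mul, zero_mul, sub_zero] at h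
  exact zero_ne_one h

theorem sli_thm : S_SLI := by
  intro p k F L _ _ _ _ _ f q m s x y ρ P hp hc hf hq hFq hm hco C
  have hq2 : 2 ≤ q := by
    rw [hq]
    calc 2 ≤ p := hp.two_le
      _ = p ^ 1 := (pow_one p).symm
      _ ≤ p ^ f := Nat.pow_le_pow_right hp.pos hf
  have hfin : Finite F := Nat.finite_of_card_ne_zero (by omega)
  have hpow : ∀ a : F, a ^ q = a := by
    intro a
    have := Fintype.ofFinite F
    rw [← hFq, Nat.card_eq_fintype_card]
    exact FiniteField.pow_card a
  -- the matrix is determined by four entries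
  have hone : ∀ g : SL F, g.1 0 0 = 1 → g.1 1 0 = 0 → g.1 0 1 = 0 → g.1 1 1 = 1 → g = 1 := by
    intro g h00 h10 h01 h11
    apply Subtype.ext
    ext i j
    fin_cases i <;> fin_cases j <;> simp [h00, h10, h01, h11]
  have hinj : Function.Injective ρ := by
    rw [injective_iff_map_eq_one]
    intro g hg
    have hx : cst k F L (g.1 0 0) * x + cst k F L (g.1 1 0) * y = x := by
      rw [← C.act_x g, hg]; rfl
    have hy : cst k F L (g.1 0 1) * x + cst k F L (g.1 1 1) * y = y := by
      rw [← C.act_y g, hg]; rfl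
    obtain ⟨h1, h2⟩ := sli_indep ((algebraMap k L).comp (algebraMap F k)) q (by omega) hpow x y
      C.eq_xy (g.1 0 0 - 1) (g.1 1 0) (by
        simp only [RingHom.comp_apply, map_sub, map_one]
        linear_combination hx)
    obtain ⟨h3, h4⟩ := sli_indep ((algebraMap k L).comp (algebraMap F k)) q (by omega) hpow x y
      C.eq_xy (g.1 0 1) (g.1 1 1 - 1) (by
        simp only [RingHom.comp_apply, map_sub, map_one]
        linear_combination hy)
    exact hone g (sub_eq_zero.1 h1) h2 h3 (sub_eq_zero.1 h4)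
  refine ⟨hinj, C.tr, ?_, ?_⟩
  · intro z
    refine ⟨C.fixed z, ?_⟩
    have hK : IntermediateField.adjoin k {s} ≤ IntermediateField.fixedField ρ.range := by
      rw [IntermediateField.adjoin_simple_le_iff]
      rintro ⟨σ, g, rfl⟩
      exact C.act_s g
    intro hz g
    exact hK hz ⟨ρ g, g, rfl⟩
  · intro Q hs g hg
    have hs' : Q.Ge (s ^ m) 0 := by
      refine Or.inr ?_
      rw [Q.ord_pow C.s_ne]
      positivity
    have hx : Q.Ge x 0 := sli_int Q hq2 hs' C.eq_x
    have hy : Q.Ge y 0 := sli_int Q hq2 hs' C.eq_y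
    have hres : ∀ z : L, Q.Ge z 0 → ∃ c : k, Q.Ge (z - algebraMap k L c) 1 := by
      intro z hz
      by_cases hz0 : z = 0
      · exact ⟨0, Or.inl (by rw [hz0, map_zero, sub_zero])⟩
      · obtain ⟨c, hc⟩ := Q.residue z hz0 ((Q.ge_iff hz0 0).1 hz)
        refine ⟨c, ?_⟩
        rcases hc with hc | hc
        · exact Or.inl (by rw [← hc, sub_self])
        · exact Or.inr (by omega)
    have hk : ∀ c : k, Q.Ge (algebraMap k L c) 1 → c = 0 := by
      intro c hc'
      by_contra hc0
      have h4 : algebraMap k L c ≠ 0 := by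
        rw [Ne, map_eq_zero]
        exact hc0
      have h5 := (Q.ge_iff h4 1).1 hc'
      rw [Q.ord_const c hc0] at h5
      omega
    obtain ⟨u, hu⟩ := hres x hx
    obtain ⟨v, hv⟩ := hres y hy
    have hmul : ∀ (z w : L) (c d : k), Q.Ge z 0 → Q.Ge (z - algebraMap k L c) 1 →
        Q.Ge (w - algebraMap k L d) 1 → Q.Ge (z * w - algebraMap k L (c * d)) 1 := by
      intro z w c d hz h1 h2
      have e : z * w - algebraMap k L (c * d) =
          z * (w - algebraMap k L d) + (z - algebraMap k L c) * algebraMap k L d := by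
        rw [map_mul]; ring
      rw [e]
      refine Q.ge_add ?_ ?_
      · have := Q.ge_mul hz h2
        rwa [zero_add] at this
      · have := Q.ge_mul h1 (Q.ge_const d)
        rwa [add_zero] at this
    have hpw : ∀ (z : L) (c : k) (n : ℕ), Q.Ge z 0 → Q.Ge (z - algebraMap k L c) 1 →
        Q.Ge (z ^ n - algebraMap k L (c ^ n)) 1 := by
      intro z c n hz h1
      induction n with
      | zero => exact Or.inl (by simp)
      | succ n ih =>
        rw [pow_succ', pow_succ']
        exact hmul z (z ^ n) c (c ^ n) hz h1 ih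
    have hpw0 : ∀ (z : L) (n : ℕ), Q.Ge z 0 → Q.Ge (z ^ n) 0 := by
      intro z n hz
      induction n with
      | zero => rw [pow_zero]; exact Or.inr (by rw [Q.ord_one])
      | succ n ih =>
        rw [pow_succ]
        have := Q.ge_mul ih hz
        rwa [add_zero] at this
    have huv : u * v ^ q - u ^ q * v = 1 := by
      have h1 := hmul x (y ^ q) u (v ^ q) hx hu (hpw y v q hy hv)
      have h2 := hmul (x ^ q) y (u ^ q) v (hpw0 x q hx) (hpw x u q hx hu) hv
      have h3 := Q.ge_sub h1 h2
      have h4 : algebraMap k L (1 - (u * v ^ q - u ^ q * v)) =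
          x * y ^ q - algebraMap k L (u * v ^ q) - (x ^ q * y - algebraMap k L (u ^ q * v)) := by
        rw [map_sub, map_one, map_sub]
        linear_combination -C.eq_xy
      rw [← h4] at h3
      have h5 := hk _ h3
      linear_combination -h5
    have hact : ∀ (z : L) (c : k) (a b : F), Q.Ge (z - algebraMap k L c) 1 →
        ρ g z = cst k F L a * x + cst k F L b * y →
        algebraMap F k a * u + algebraMap F k b * v - c = 0 := by
      intro z c a b hz hgz
      have h1 : Q.Ge (ρ g (z - algebraMap k L c)) 1 := hg.ge hz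
      rw [map_sub, AlgEquiv.commutes, hgz] at h1
      have hA : ∀ (a : F) (w : L) (d : k), Q.Ge (w - algebraMap k L d) 1 →
          Q.Ge (cst k F L a * (w - algebraMap k L d)) 1 := by
        intro a w d hw
        have := Q.ge_mul (Q.ge_const (algebraMap F k a)) hw
        rwa [zero_add] at this
      have h2 := Q.ge_sub h1 (Q.ge_add (hA a x u hu) (hA b y v hv))
      have h3 : algebraMap k L (algebraMap F k a * u + algebraMap F k b * v - c) =
          cst k F L a * x + cst k F L b * y - algebraMap k L c -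
            (cst k F L a * (x - algebraMap k L u) + cst k F L b * (y - algebraMap k L v)) := by
        rw [map_sub, map_add, map_mul, map_mul]
        ring
      rw [← h3] at h2
      exact hk _ h2
    have hgx := hact x u (g.1 0 0) (g.1 1 0) hu (C.act_x g)
    have hgy := hact y v (g.1 0 1) (g.1 1 1) hv (C.act_y g)
    obtain ⟨h1, h2⟩ := sli_indep (algebraMap F k) q (by omega) hpow u v huv (g.1 0 0 - 1)
      (g.1 1 0) (by
        rw [map_sub, map_one]
        linear_combination hgx)
    obtain ⟨h3, h4⟩ := sli_indep (algebraMap F k) q (by omega) hpow u v huv (g.1 0 1)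
      (g.1 1 1 - 1) (by
        rw [map_sub, map_one]
        linear_combination hgy)
    exact hone g (sub_eq_zero.1 h1) h2 h3 (sub_eq_zero.1 h4)

end Pool.CND
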