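import Pool.Agent.H37.CNE.Stmts

/-!
# Board `cne`, row SLO (helper2)
-/

set_option autoImplicit false

namespace Pool.CND

theorem slo_thm (hE : S_SLE) (hI : S_SLI) (hN : S_SLN) : S_SLO := by
  intro p k F _ _ _ f q m hp hc hf hq hF hm hco
  obtain ⟨L, fL, aL, s, x, y, ρ, P, hS⟩ := hE p k F f q m hp hc hf hq hF hm hco
  refine ⟨L, fL, aL, ρ, s, hI p k F L f q m s x y ρ P hp hc hf hq hF hm hco hS, P, ?_,
    hN p k F L f q m s x y ρ P hp hc hf hq hF hm hco hS⟩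
  have hq2 : 2 ≤ q := by
    rw [hq]
    calc 2 ≤ p := hp.two_le
      _ = p ^ 1 := (pow_one p).symm
      _ ≤ p ^ f := Nat.pow_le_pow_right hp.pos hf
  have h1 : 0 < q * (q - 1) := Nat.mul_pos (by omega) (by omega)
  rw [hS.ord_s]
  omega

end Pool.CND
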